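import Pool.Agent.MP7b039f.HeightBound
import Pool.Agent.MP7b039f.Coh2
import Pool.Agent.MP7b039f.CohTop

/-!
A smooth projective geometrically integral threefold `V` over `K = 𝔽₂(t)`, whose anticanonical
sheaf is very ample, with `H¹(V, 𝒪) = H²(V, 𝒪) = 0` and dense set of `K`-points, such that the
abscissa of convergence `θ_U` of the anticanonical height zeta function is at least `2` for every
dense open subset `U` of `V`.

`V` is the hypersurface `x₀² y₀ + x₁² y₁ + x₂² y₂ = 0` in `ℙ² × ℙ²`, embedded by `𝒪(1, 2)`.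
For a point `z` of `ℙ²(K)` the fibre of `V` over `y = z²` (coordinatewise square) is the line
`z₀ x₀ + z₁ x₁ + z₂ x₂ = 0`, which has anticanonical degree one.
-/

open CategoryTheory AlgebraicGeometry TopologicalSpace Opposite

noncomputable section

namespace Pool.Agent.Results.MP_7b039f_nt.ThetaAtLeastTwo

open Pool.Agent.MP7b039f

/-- the numbering of the coordinates. -/
def numb : Fin (26 + 1) ≃ Idx := (Fintype.equivFinOfCardEq (by simp)).symm

theorem result :
    ∃ (V : Scheme.{0}) (f : V ⟶ SpecF F2t) (N : ℕ) (φ : V ⟶ PSpace (Fin (N + 1)) F2t),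
      IsClosedImmersion φ ∧ φ ≫ PSpace.toSpec (Fin (N + 1)) F2t = f ∧
      SmoothOfRelativeDimension 3 f ∧ GeometricallyIntegral f ∧
      IsAnticanonical f 3 φ ∧
      Subsingleton (HO V 1) ∧ Subsingleton (HO V 2) ∧
      Dense (ratSet f) ∧
      ∀ U : Set (Pts V), IsOpen U → Dense U → 2 ≤ abscissa f φ U := by
  refine ⟨VV F2t, fVV F2t, 26, phi F2t numb, closedImm_phi F2t numb, phi_toSpec F2t numb,
    smooth_fVV F2t, geomInt_fVV F2t, anticanonical F2t numb, ?_, ?_, dense_points F2t,
    two_le_abscissa numb⟩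
  · exact subsingleton_H_of_top _ 1 (coh_top F2t).1
  · exact subsingleton_H_of_top _ 2 (coh_top F2t).2

end Pool.Agent.Results.MP_7b039f_nt.ThetaAtLeastTwo
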